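import Pool.Agent.H261R3.LN.LStmts

set_option autoImplicit false

/-!
# `TaskHypRay`: the vertical geodesic ray in hyperbolic space
-/

open scoped NNReal ENNReal unitInterval

namespace Pool.Agent.H261R3.LN

theorem cosh_sub_form (a b : ℝ) :
    1 + (Real.exp a - Real.exp b) ^ 2 / (2 * Real.exp a * Real.exp b) = Real.cosh (a - b) := by
  have ha := Real.exp_pos a
  have hb := Real.exp_pos b
  rw [Real.cosh_eq, neg_sub, Real.exp_sub, Real.exp_sub]
  field_simp
  ring

theorem taskHypRay : TaskHypRay := by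
  intro m R hR
  refine ⟨fun s => ⟨0, Real.exp (R * s), Real.exp_pos _⟩, ?_, ?_⟩
  · unfold origin
    simp
  · intro s t
    unfold hdist
    show Real.arcosh (1 + (‖(0 : EuclideanSpace ℝ (Fin m)) - 0‖ ^ 2 +
      (Real.exp (R * s) - Real.exp (R * t)) ^ 2) /
        (2 * Real.exp (R * s) * Real.exp (R * t))) = R * |(s : ℝ) - t|
    rw [sub_zero, norm_zero, zero_pow two_ne_zero, zero_add, cosh_sub_form, ← Real.cosh_abs,
      Real.arcosh_cosh (abs_nonneg _), ← mul_sub, abs_mul, abs_of_pos hR]

end Pool.Agent.H261R3.LN
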